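import Pool.Agent.R963.GK.Key
import Pool.Agent.R986.MH.Final

/-! MP_819a4a_pr, full answer (TRUE): for every `r > 0`,
`s(r) = sup_k g(k;r) = max_{1 ≤ k ≤ ⌈r⌉} g(k;r)`. -/

open scoped ENNReal

namespace Pool.Agent.Results.MP_819a4a_pr.CeilingBound

/-- `s(r)` is the supremum of the two-point moment ratio over admissible pairs; it is the supremum of
`g(k;r) = (2k-1)^r / ∑_{i=1}^k i^r` over all `k ≥ 1` and it is attained at some `k ≤ ⌈r⌉`. -/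
theorem result (r : ℝ) (hr : 0 < r) :
    R986.MH.s r ≠ ∞ ∧
    IsLUB {t : ℝ | ∃ k : ℕ, 1 ≤ k ∧
      t = (2 * (k : ℝ) - 1) ^ r / ∑ i ∈ Finset.Icc 1 k, (i : ℝ) ^ r} (R986.MH.s r).toReal ∧
    IsGreatest {t : ℝ | ∃ k : ℕ, 1 ≤ k ∧ k ≤ ⌈r⌉₊ ∧
      t = (2 * (k : ℝ) - 1) ^ r / ∑ i ∈ Finset.Icc 1 k, (i : ℝ) ^ r} (R986.MH.s r).toReal := by
  obtain ⟨k₀, h1, h2, h3, h4⟩ := R986.MH.main
    (fun r hr k m hm hmk => GK.key hr hm hmk) r hr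
  have h5 : (R986.MH.s r).toReal = GK.g k₀ r := by
    rw [h3]
    exact ENNReal.toReal_ofReal (R986.MH.g_nonneg h1 r)
  rw [h5]
  refine ⟨by rw [h3]; exact ENNReal.ofReal_ne_top, ⟨?_, ?_⟩, ⟨⟨k₀, h1, h2, rfl⟩, ?_⟩⟩
  · rintro t ⟨k, hk, rfl⟩
    exact h4 k hk
  · intro b hb
    exact hb ⟨k₀, h1, rfl⟩
  · rintro t ⟨k, hk, _, rfl⟩
    exact h4 k hk

end Pool.Agent.Results.MP_819a4a_pr.CeilingBound
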